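import Mathlib

set_option autoImplicit false
set_option linter.unusedSectionVars false

/-!
# Expected maximum of independent exponential random variables: integral formulas
-/

open Finset MeasureTheory

namespace Pool.Agent.X188.MaxExp

variable {ι : Type*} [DecidableEq ι]

/-- The distribution function of the maximum. -/
noncomputable def G (s : Finset ι) (a : ι → ℝ) (x : ℝ) : ℝ :=
  ∏ j ∈ s, (1 - Real.exp (-(a j * x)))

/-- `S s a` is the alternating sum of the reciprocals of the subset sums. -/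
noncomputable def S (s : Finset ι) (a : ι → ℝ) : ℝ :=
  ∑ J ∈ s.powerset.erase ∅, (-1 : ℝ) ^ (J.card + 1) / (∑ j ∈ J, a j)

/-- First shifted sum. -/
noncomputable def T (s : Finset ι) (a : ι → ℝ) (t : ℝ) : ℝ :=
  ∑ J ∈ s.powerset, (-1 : ℝ) ^ J.card / (t + ∑ j ∈ J, a j)

/-- Second shifted sum. -/
noncomputable def T2 (s : Finset ι) (a : ι → ℝ) (t : ℝ) : ℝ :=
  ∑ J ∈ s.powerset, (-1 : ℝ) ^ J.card / (t + ∑ j ∈ J, a j) ^ 2

theorem integrable_exp {c : ℝ} (hc : 0 < c) :
    IntegrableOn (fun x : ℝ => Real.exp (-(c * x))) (Set.Ioi 0) := by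
  have h := integrableOn_exp_mul_Ioi (a := -c) (by linarith) 0
  refine h.congr_fun (fun x _ => by simp) measurableSet_Ioi

theorem integral_exp {c : ℝ} (hc : 0 < c) :
    ∫ x in Set.Ioi (0 : ℝ), Real.exp (-(c * x)) = 1 / c := by
  have h := integral_exp_mul_Ioi (a := -c) (by linarith) 0
  have h2 : ∀ x : ℝ, Real.exp (-(c * x)) = Real.exp (-c * x) := fun x => by ring_nf
  simp_rw [h2, h]
  simp

theorem integrable_mul_exp {c : ℝ} (hc : 0 < c) :
    IntegrableOn (fun x : ℝ => x * Real.exp (-(c * x))) (Set.Ioi 0) := by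
  have h := integrableOn_rpow_mul_exp_neg_mul_rpow (p := 1) (s := 1) (b := c) (by norm_num)
    (by norm_num) hc
  refine h.congr_fun (fun x _ => by simp) measurableSet_Ioi

theorem integral_mul_exp {c : ℝ} (hc : 0 < c) :
    ∫ x in Set.Ioi (0 : ℝ), x * Real.exp (-(c * x)) = 1 / c ^ 2 := by
  have h := Real.integral_rpow_mul_exp_neg_mul_Ioi (a := 2) (r := c) (by norm_num) hc
  have h3 : Real.Gamma 2 = 1 := Real.Gamma_two
  rw [h3] at h
  have h4 : ∫ x in Set.Ioi (0 : ℝ), x * Real.exp (-(c * x)) =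
      ∫ t in Set.Ioi (0 : ℝ), t ^ ((2 : ℝ) - 1) * Real.exp (-(c * t)) := by
    refine setIntegral_congr_fun measurableSet_Ioi (fun x _ => ?_)
    norm_num
  rw [h4, h]
  norm_num

theorem G_expand (s : Finset ι) (a : ι → ℝ) (x : ℝ) :
    G s a x = ∑ J ∈ s.powerset, (-1 : ℝ) ^ J.card * Real.exp (-((∑ j ∈ J, a j) * x)) := by
  unfold G
  simp_rw [sub_eq_add_neg]
  rw [Finset.prod_one_add]
  refine Finset.sum_congr rfl (fun J _ => ?_)
  rw [Finset.prod_neg, ← Real.exp_sum, Finset.sum_neg_distrib, Finset.sum_mul]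

theorem one_sub_G (s : Finset ι) (a : ι → ℝ) (x : ℝ) :
    1 - G s a x = ∑ J ∈ s.powerset.erase ∅,
      (-1 : ℝ) ^ (J.card + 1) * Real.exp (-((∑ j ∈ J, a j) * x)) := by
  rw [G_expand, ← Finset.add_sum_erase _ _ (Finset.empty_mem_powerset s)]
  simp only [card_empty, pow_zero, sum_empty, zero_mul, neg_zero, Real.exp_zero, mul_one]
  rw [sub_add_cancel_left, ← Finset.sum_neg_distrib]
  refine Finset.sum_congr rfl (fun J _ => by ring)

theorem sum_pos_of {s : Finset ι} {a : ι → ℝ} (ha : ∀ j ∈ s, 0 < a j) {J : Finset ι}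
    (hJ : J ∈ s.powerset.erase ∅) : 0 < ∑ j ∈ J, a j := by
  rw [Finset.mem_erase, Finset.mem_powerset] at hJ
  exact Finset.sum_pos (fun j hj => ha j (hJ.2 hj)) (Finset.nonempty_iff_ne_empty.2 hJ.1)

theorem sum_nonneg_of {s : Finset ι} {a : ι → ℝ} (ha : ∀ j ∈ s, 0 < a j) {J : Finset ι}
    (hJ : J ∈ s.powerset) : 0 ≤ ∑ j ∈ J, a j :=
  Finset.sum_nonneg (fun j hj => (ha j (Finset.mem_powerset.1 hJ hj)).le)

theorem integrable_one_sub_G {s : Finset ι} {a : ι → ℝ} (ha : ∀ j ∈ s, 0 < a j) :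
    IntegrableOn (fun x => 1 - G s a x) (Set.Ioi 0) := by
  simp_rw [one_sub_G]
  refine integrable_finsetSum _ (fun J hJ => ?_)
  exact (integrable_exp (sum_pos_of ha hJ)).const_mul _

theorem integral_one_sub_G {s : Finset ι} {a : ι → ℝ} (ha : ∀ j ∈ s, 0 < a j) :
    ∫ x in Set.Ioi (0 : ℝ), (1 - G s a x) = S s a := by
  simp_rw [one_sub_G]
  rw [integral_finsetSum]
  · unfold S
    refine Finset.sum_congr rfl (fun J hJ => ?_)
    rw [integral_const_mul, integral_exp (sum_pos_of ha hJ)]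
    ring
  · intro J hJ
    exact (integrable_exp (sum_pos_of ha hJ)).const_mul _

theorem exp_mul_G (s : Finset ι) (a : ι → ℝ) (t x : ℝ) :
    Real.exp (-(t * x)) * G s a x =
      ∑ J ∈ s.powerset, (-1 : ℝ) ^ J.card * Real.exp (-((t + ∑ j ∈ J, a j) * x)) := by
  rw [G_expand, Finset.mul_sum]
  refine Finset.sum_congr rfl (fun J _ => ?_)
  rw [mul_left_comm, ← Real.exp_add]
  ring_nf

theorem integrable_exp_mul_G {s : Finset ι} {a : ι → ℝ} (ha : ∀ j ∈ s, 0 < a j) {t : ℝ}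
    (ht : 0 < t) : IntegrableOn (fun x => Real.exp (-(t * x)) * G s a x) (Set.Ioi 0) := by
  simp_rw [exp_mul_G]
  refine integrable_finsetSum _ (fun J hJ => ?_)
  exact (integrable_exp (by have := sum_nonneg_of ha hJ; linarith)).const_mul _

theorem integral_exp_mul_G {s : Finset ι} {a : ι → ℝ} (ha : ∀ j ∈ s, 0 < a j) {t : ℝ}
    (ht : 0 < t) : ∫ x in Set.Ioi (0 : ℝ), Real.exp (-(t * x)) * G s a x = T s a t := by
  simp_rw [exp_mul_G]
  rw [integral_finsetSum]
  · unfold T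
    refine Finset.sum_congr rfl (fun J hJ => ?_)
    rw [integral_const_mul, integral_exp (by have := sum_nonneg_of ha hJ; linarith)]
    ring
  · intro J hJ
    exact (integrable_exp (by have := sum_nonneg_of ha hJ; linarith)).const_mul _

theorem x_exp_mul_G (s : Finset ι) (a : ι → ℝ) (t x : ℝ) :
    x * (Real.exp (-(t * x)) * G s a x) =
      ∑ J ∈ s.powerset, (-1 : ℝ) ^ J.card * (x * Real.exp (-((t + ∑ j ∈ J, a j) * x))) := by
  rw [exp_mul_G, Finset.mul_sum]
  refine Finset.sum_congr rfl (fun J _ => by ring)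

theorem integrable_x_exp_mul_G {s : Finset ι} {a : ι → ℝ} (ha : ∀ j ∈ s, 0 < a j) {t : ℝ}
    (ht : 0 < t) : IntegrableOn (fun x => x * (Real.exp (-(t * x)) * G s a x)) (Set.Ioi 0) := by
  simp_rw [x_exp_mul_G]
  refine integrable_finsetSum _ (fun J hJ => ?_)
  exact (integrable_mul_exp (by have := sum_nonneg_of ha hJ; linarith)).const_mul _

theorem integral_x_exp_mul_G {s : Finset ι} {a : ι → ℝ} (ha : ∀ j ∈ s, 0 < a j) {t : ℝ}
    (ht : 0 < t) :
    ∫ x in Set.Ioi (0 : ℝ), x * (Real.exp (-(t * x)) * G s a x) = T2 s a t := by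
  simp_rw [x_exp_mul_G]
  rw [integral_finsetSum]
  · unfold T2
    refine Finset.sum_congr rfl (fun J hJ => ?_)
    rw [integral_const_mul, integral_mul_exp (by have := sum_nonneg_of ha hJ; linarith)]
    ring
  · intro J hJ
    exact (integrable_mul_exp (by have := sum_nonneg_of ha hJ; linarith)).const_mul _

theorem G_nonneg {s : Finset ι} {a : ι → ℝ} (ha : ∀ j ∈ s, 0 < a j) {x : ℝ} (hx : 0 ≤ x) :
    0 ≤ G s a x :=
  Finset.prod_nonneg (fun j hj => by
    have := Real.exp_le_one_iff.2 (neg_nonpos.2 (mul_nonneg (ha j hj).le hx))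
    linarith)

theorem G_pos {s : Finset ι} {a : ι → ℝ} (ha : ∀ j ∈ s, 0 < a j) {x : ℝ} (hx : 0 < x) :
    0 < G s a x :=
  Finset.prod_pos (fun j hj => by
    have h1 : Real.exp (-(a j * x)) < Real.exp 0 :=
      Real.exp_lt_exp.2 (neg_lt_zero.2 (mul_pos (ha j hj) hx))
    rw [Real.exp_zero] at h1
    linarith)

theorem G_le_one {s : Finset ι} {a : ι → ℝ} (ha : ∀ j ∈ s, 0 < a j) {x : ℝ} (hx : 0 ≤ x) :
    G s a x ≤ 1 :=
  Finset.prod_le_one (fun j hj => by
    have := Real.exp_le_one_iff.2 (neg_nonpos.2 (mul_nonneg (ha j hj).le hx))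
    linarith) (fun j hj => by
    have := Real.exp_pos (-(a j * x))
    linarith)

theorem continuous_G (s : Finset ι) (a : ι → ℝ) : Continuous (G s a) := by
  unfold G
  fun_prop

theorem S_nonneg {s : Finset ι} {a : ι → ℝ} (ha : ∀ j ∈ s, 0 < a j) : 0 ≤ S s a := by
  rw [← integral_one_sub_G ha]
  exact setIntegral_nonneg measurableSet_Ioi (fun x hx => by
    have := G_le_one ha (x := x) (le_of_lt hx)
    linarith)

/-- positivity of integrals -/
theorem integral_pos_of {f : ℝ → ℝ} (hf : Continuous f) (hi : IntegrableOn f (Set.Ioi 0))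
    (h0 : ∀ x, 0 < x → 0 ≤ f x) {x₁ : ℝ} (hx₁ : 0 < x₁) (h1 : 0 < f x₁) :
    0 < ∫ x in Set.Ioi (0 : ℝ), f x := by
  rw [setIntegral_pos_iff_support_of_nonneg_ae _ hi]
  · have hopen : IsOpen {x : ℝ | 0 < x ∧ 0 < f x} :=
      (isOpen_lt continuous_const continuous_id).inter (isOpen_lt continuous_const hf)
    have hpos : 0 < volume {x : ℝ | 0 < x ∧ 0 < f x} := hopen.measure_pos _ ⟨x₁, hx₁, h1⟩
    refine lt_of_lt_of_le hpos (measure_mono ?_)
    intro x hx
    exact ⟨ne_of_gt hx.2, hx.1⟩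
  · rw [Filter.EventuallyLE, ae_restrict_iff' measurableSet_Ioi]
    exact Filter.Eventually.of_forall (fun x hx => h0 x hx)

theorem T_pos {s : Finset ι} {a : ι → ℝ} (ha : ∀ j ∈ s, 0 < a j) {t : ℝ} (ht : 0 < t) :
    0 < T s a t := by
  rw [← integral_exp_mul_G ha ht]
  refine integral_pos_of ?_ (integrable_exp_mul_G ha ht) (fun x hx => ?_) one_pos ?_
  · exact (by fun_prop : Continuous fun x : ℝ => Real.exp (-(t * x))).mul (continuous_G s a)
  · exact mul_nonneg (Real.exp_pos _).le (G_nonneg ha hx.le)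
  · exact mul_pos (Real.exp_pos _) (G_pos ha one_pos)

theorem T2_pos {s : Finset ι} {a : ι → ℝ} (ha : ∀ j ∈ s, 0 < a j) {t : ℝ} (ht : 0 < t) :
    0 < T2 s a t := by
  rw [← integral_x_exp_mul_G ha ht]
  refine integral_pos_of ?_ (integrable_x_exp_mul_G ha ht) (fun x hx => ?_) one_pos ?_
  · exact continuous_id.mul
      ((by fun_prop : Continuous fun x : ℝ => Real.exp (-(t * x))).mul (continuous_G s a))
  · exact mul_nonneg hx.le (mul_nonneg (Real.exp_pos _).le (G_nonneg ha hx.le))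
  · exact mul_pos one_pos (mul_pos (Real.exp_pos _) (G_pos ha one_pos))

end Pool.Agent.X188.MaxExp
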