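import Pool.Agent.X188.MaxExp.Main

set_option autoImplicit false
set_option linter.unusedSectionVars false

/-!
# The inequality for at most six variables: the minimiser argument
-/

open Finset MeasureTheory

namespace Pool.Agent.X188.MaxExp

variable {ι : Type*} [DecidableEq ι]

theorem S_congr {s : Finset ι} {a b : ι → ℝ} (h : ∀ j ∈ s, a j = b j) : S s a = S s b := by
  have hs : ∀ J ∈ s.powerset, ∑ j ∈ J, a j = ∑ j ∈ J, b j := fun J hJ =>
    Finset.sum_congr rfl (fun j hj => h j (Finset.mem_powerset.1 hJ hj))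
  unfold S
  exact Finset.sum_congr rfl (fun J hJ => by rw [hs J (Finset.mem_of_mem_erase hJ)])

theorem T_congr {s : Finset ι} {a b : ι → ℝ} (h : ∀ j ∈ s, a j = b j) (t : ℝ) :
    T s a t = T s b t := by
  have hs : ∀ J ∈ s.powerset, ∑ j ∈ J, a j = ∑ j ∈ J, b j := fun J hJ =>
    Finset.sum_congr rfl (fun j hj => h j (Finset.mem_powerset.1 hJ hj))
  unfold T
  exact Finset.sum_congr rfl (fun J hJ => by rw [hs J hJ])

theorem S_update [Fintype ι] {i : ι} {a : ι → ℝ} (ha : ∀ j, 0 < a j) {τ : ℝ} (hτ : 0 < τ) :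
    S univ (Function.update a i τ) =
      S (univ.erase i) a + T (univ.erase i) a τ := by
  have h1 : (univ : Finset ι) = insert i (univ.erase i) :=
    (Finset.insert_erase (Finset.mem_univ i)).symm
  have hup : ∀ l, 0 < Function.update a i τ l := by
    intro l
    by_cases hl : l = i
    · rw [hl, Function.update_self]; exact hτ
    · rw [Function.update_of_ne hl]; exact ha l
  have hc : ∀ j ∈ (univ.erase i : Finset ι), Function.update a i τ j = a j := fun j hj =>
    Function.update_of_ne (Finset.ne_of_mem_erase hj) _ _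
  have h2 := S_insert (s := univ.erase i) (i := i) (Finset.notMem_erase i univ)
    (a := Function.update a i τ) (fun j _ => hup j) (hup i)
  rw [← h1, Function.update_self, S_congr hc, T_congr hc] at h2
  exact h2

theorem S_continuousOn [Fintype ι] :
    ContinuousOn (fun a : ι → ℝ => S univ a) {a | ∀ j, 0 < a j} := by
  have hsum : ∀ J : Finset ι, Continuous fun a : ι → ℝ => ∑ j ∈ J, a j := fun J => by fun_prop
  unfold S
  refine continuousOn_finsetSum _ (fun J hJ => ?_)
  refine ContinuousOn.div continuousOn_const (hsum J).continuousOn (fun a ha => ?_)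
  exact (sum_pos_of (fun j _ => ha j) hJ).ne'

/-- sum of the inverse squares -/
noncomputable def N [Fintype ι] (a : ι → ℝ) : ℝ := ∑ j, 1 / (a j) ^ 2

theorem N_continuousOn [Fintype ι] :
    ContinuousOn (fun a : ι → ℝ => N a) {a | ∀ j, 0 < a j} := by
  unfold N
  refine continuousOn_finsetSum _ (fun j _ => ?_)
  refine ContinuousOn.div continuousOn_const
    ((continuous_apply j).pow 2).continuousOn (fun a ha => ?_)
  exact (pow_pos (ha j) 2).ne'

theorem N_pos [Fintype ι] [Nonempty ι] {a : ι → ℝ} (ha : ∀ j, 0 < a j) : 0 < N a := by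
  unfold N
  exact Finset.sum_pos (fun j _ => by have := ha j; positivity) Finset.univ_nonempty

theorem N_update [Fintype ι] (i : ι) (a : ι → ℝ) (τ : ℝ) :
    N (Function.update a i τ) = 1 / τ ^ 2 + ∑ j ∈ univ.erase i, 1 / (a j) ^ 2 := by
  unfold N
  rw [← Finset.add_sum_erase univ _ (Finset.mem_univ i), Function.update_self]
  congr 1
  exact Finset.sum_congr rfl (fun j hj => by
    rw [Function.update_of_ne (Finset.ne_of_mem_erase hj)])

theorem N_scale [Fintype ι] (a : ι → ℝ) {c : ℝ} (hc : c ≠ 0) :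
    N (fun j => a j / c) = c ^ 2 * N a := by
  unfold N
  rw [Finset.mul_sum]
  refine Finset.sum_congr rfl (fun j _ => ?_)
  rw [div_pow, div_div_eq_mul_div]
  ring

/-- one-sided first-order condition -/
theorem deriv_nonneg_of_right_min {f : ℝ → ℝ} {f' x R : ℝ} (hx : x < R)
    (hf : HasDerivAt f f' x) (h : ∀ y, x ≤ y → y ≤ R → f x ≤ f y) : 0 ≤ f' := by
  have h1 : Filter.Tendsto (slope f x) (nhdsWithin x (Set.Ioi x)) (nhds f') :=
    hf.tendsto_slope.mono_left (nhdsGT_le_nhdsNE x)
  refine ge_of_tendsto h1 ?_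
  have h2 : Set.Ioc x R ∈ nhdsWithin x (Set.Ioi x) := Ioc_mem_nhdsGT hx
  filter_upwards [h2] with y hy
  rw [slope_def_field]
  exact div_nonneg (by linarith [h y hy.1.le hy.2]) (by linarith [hy.1])

/-- local step at a minimiser -/
theorem local_step [Fintype ι] [Nonempty ι] (hcard : Fintype.card ι ≤ 6) {c : ι → ℝ} {R : ℝ}
    (hc1 : ∀ j, 1 ≤ c j) (hcR : ∀ j, c j ≤ R) {i : ι} (hi : ∀ j, c i ≤ c j) (hiR : c i < R)
    (hmin : ∀ b : ι → ℝ, (∀ j, 1 ≤ b j) → (∀ j, b j ≤ R) →
      (S univ c) ^ 2 / N c ≤ (S univ b) ^ 2 / N b) : 1 ≤ (S univ c) ^ 2 / N c := by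
  have hc0 : ∀ j, 0 < c j := fun j => by linarith [hc1 j]
  set ρ := (S univ c) ^ 2 / N c with hρ
  set s : Finset ι := univ.erase i with hs
  have hscard : s.card ≤ 5 := by
    rw [hs, Finset.card_erase_of_mem (Finset.mem_univ i), Finset.card_univ]
    omega
  have hself : Function.update c i (c i) = c := Function.update_eq_self i c
  have hSc : S univ c = S s c + T s c (c i) := by
    have := S_update hc0 (i := i) (hc0 i)
    rwa [hself] at this
  have hNc : N c = 1 / (c i) ^ 2 + ∑ j ∈ s, 1 / (c j) ^ 2 := by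
    have := N_update i c (c i)
    rwa [hself] at this
  have hρN : (S univ c) ^ 2 = ρ * N c := by
    rw [hρ, div_mul_cancel₀ _ (N_pos hc0).ne']
  set f : ℝ → ℝ := fun τ => (S s c + T s c τ) ^ 2 - ρ * (1 / τ ^ 2 + ∑ j ∈ s, 1 / (c j) ^ 2)
    with hf
  have hfc : f (c i) = 0 := by
    simp only [hf]
    rw [← hSc, ← hNc, hρN, sub_self]
  have hfn : ∀ y, c i ≤ y → y ≤ R → f (c i) ≤ f y := by
    intro y hy hyR
    rw [hfc]
    have hy0 : 0 < y := lt_of_lt_of_le (hc0 i) hy
    have hb1 : ∀ j, 1 ≤ Function.update c i y j := by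
      intro l
      by_cases hl : l = i
      · rw [hl, Function.update_self]; exact le_trans (hc1 i) hy
      · rw [Function.update_of_ne hl]; exact hc1 l
    have hbR : ∀ j, Function.update c i y j ≤ R := by
      intro l
      by_cases hl : l = i
      · rw [hl, Function.update_self]; exact hyR
      · rw [Function.update_of_ne hl]; exact hcR l
    have h1 := hmin (Function.update c i y) hb1 hbR
    rw [le_div_iff₀ (N_pos (fun j => by linarith [hb1 j])), S_update hc0 hy0, N_update] at h1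
    simp only [hf]
    linarith
  have hTd := hasDerivAt_T (s := s) (a := c) (fun j _ => hc0 j) (hc0 i)
  have hd1 : HasDerivAt (fun τ : ℝ => 1 / τ ^ 2) (-2 / (c i) ^ 3) (c i) := by
    have h1 := (hasDerivAt_pow 2 (c i)).inv (pow_pos (hc0 i) 2).ne'
    refine (h1.congr_deriv ?_).congr_of_eventuallyEq ?_
    · have := (hc0 i).ne'
      field_simp
      norm_num
      ring
    · exact Filter.Eventually.of_forall (fun τ => by simp)
  have hfd : HasDerivAt f (2 * (S s c + T s c (c i)) * (-T2 s c (c i)) -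
      ρ * (-2 / (c i) ^ 3)) (c i) := by
    have h1 := (hTd.const_add (S s c)).pow 2
    have h2 := (hd1.add_const (∑ j ∈ s, 1 / (c j) ^ 2)).const_mul ρ
    refine ((h1.sub h2).congr_deriv ?_).congr_of_eventuallyEq ?_
    · norm_num
    · exact Filter.Eventually.of_forall (fun τ => by simp [hf])
  have h0 := deriv_nonneg_of_right_min hiR hfd hfn
  have hp := product_ineq hscard (hc0 i) (a := c) (fun j _ => hi j)
  have hc3 : 0 < (c i) ^ 3 := pow_pos (hc0 i) 3
  have h2 : 0 ≤ (2 * (S s c + T s c (c i)) * (-T2 s c (c i)) - ρ * (-2 / (c i) ^ 3)) *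
      (c i) ^ 3 := mul_nonneg h0 hc3.le
  have h3 : (2 * (S s c + T s c (c i)) * (-T2 s c (c i)) - ρ * (-2 / (c i) ^ 3)) *
      (c i) ^ 3 = -2 * ((S s c + T s c (c i)) * T2 s c (c i) * (c i) ^ 3) + 2 * ρ := by
    have hci : c i ≠ 0 := (hc0 i).ne'
    have h4 : ρ * (-2 / (c i) ^ 3) * (c i) ^ 3 = -2 * ρ := by
      rw [mul_assoc, div_mul_cancel₀ _ (pow_ne_zero 3 hci)]
      ring
    rw [sub_mul, h4]
    ring
  rw [h3] at h2
  linarith

/-- The inequality for at most six variables. -/
theorem main_ineq [Fintype ι] (hcard : Fintype.card ι ≤ 6) {a : ι → ℝ} (ha : ∀ j, 0 < a j) :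
    N a ≤ (S univ a) ^ 2 := by
  rcases isEmpty_or_nonempty ι with hE | hE
  · unfold N
    simp only [Finset.univ_eq_empty, Finset.sum_empty]
    positivity
  obtain ⟨i₀, -, hi₀⟩ := Finset.exists_min_image (univ : Finset ι) a Finset.univ_nonempty
  set b : ι → ℝ := fun j => a j / a i₀ with hb
  have hb1 : ∀ j, 1 ≤ b j := fun j => by
    simp only [hb]
    rw [le_div_iff₀ (ha i₀), one_mul]
    exact hi₀ j (Finset.mem_univ j)
  have hb0 : ∀ j, 0 < b j := fun j => by linarith [hb1 j]
  obtain ⟨R, hR1, hR⟩ : ∃ R, 1 < R ∧ ∀ j, b j ≤ R := by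
    refine ⟨∑ j, b j + 1, ?_, fun j => ?_⟩
    · have := Finset.sum_pos (fun j _ => hb0 j) (Finset.univ_nonempty (α := ι))
      linarith
    · have := Finset.single_le_sum (f := b) (fun i _ => (hb0 i).le) (Finset.mem_univ j)
      linarith
  have hC : IsCompact (Set.pi Set.univ (fun _ : ι => Set.Icc (1 : ℝ) R)) :=
    isCompact_univ_pi (fun _ => isCompact_Icc)
  have hbC : b ∈ Set.pi Set.univ (fun _ : ι => Set.Icc (1 : ℝ) R) :=
    fun j _ => ⟨hb1 j, hR j⟩
  have hsub : Set.pi Set.univ (fun _ : ι => Set.Icc (1 : ℝ) R) ⊆ {a | ∀ j, 0 < a j} := by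
    intro c hc j
    have := (hc j (Set.mem_univ j)).1
    linarith
  have hcont : ContinuousOn (fun a : ι → ℝ => (S univ a) ^ 2 / N a) {a | ∀ j, 0 < a j} :=
    (S_continuousOn.pow 2).div N_continuousOn (fun a ha => (N_pos ha).ne')
  obtain ⟨c, hcC, hcmin⟩ := hC.exists_isMinOn ⟨b, hbC⟩ (hcont.mono hsub)
  have hc1 : ∀ j, 1 ≤ c j := fun j => (hcC j (Set.mem_univ j)).1
  have hcR : ∀ j, c j ≤ R := fun j => (hcC j (Set.mem_univ j)).2
  have hmin : ∀ b' : ι → ℝ, (∀ j, 1 ≤ b' j) → (∀ j, b' j ≤ R) →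
      (S univ c) ^ 2 / N c ≤ (S univ b') ^ 2 / N b' := fun b' h1 h2 =>
    hcmin (show b' ∈ Set.pi Set.univ (fun _ : ι => Set.Icc (1 : ℝ) R) from
      fun j _ => ⟨h1 j, h2 j⟩)
  obtain ⟨i, -, hi⟩ := Finset.exists_min_image (univ : Finset ι) c Finset.univ_nonempty
  have hkey : 1 ≤ (S univ c) ^ 2 / N c := by
    rcases lt_or_ge (c i) R with h | h
    · exact local_step hcard hc1 hcR (fun j => hi j (Finset.mem_univ j)) h hmin
    · have hall : ∀ j, c j = R := fun j =>
        le_antisymm (hcR j) (le_trans h (hi j (Finset.mem_univ j)))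
      have hR0 : R ≠ 0 := by linarith
      have hce : c = fun j => (fun _ : ι => (1 : ℝ)) j / (1 / R) := by
        funext j
        rw [hall j]
        simp
      have hS : (S univ c) ^ 2 / N c =
          (S univ (fun _ : ι => (1 : ℝ))) ^ 2 / N (fun _ : ι => (1 : ℝ)) := by
        have hi' : (1 / R : ℝ) ≠ 0 := one_div_ne_zero hR0
        conv_lhs => rw [hce]
        rw [S_scale univ _ hi', N_scale _ hi', mul_pow, mul_div_mul_left _ _ (pow_ne_zero 2 hi')]
      rw [hS]
      refine local_step hcard (R := R) (fun _ => le_rfl) (fun _ => hR1.le) (i := i)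
        (fun _ => le_rfl) hR1 (fun b' h1 h2 => ?_)
      rw [← hS]
      exact hmin b' h1 h2
  have hfin : 1 ≤ (S univ b) ^ 2 / N b := le_trans hkey (hmin b hb1 hR)
  have hai := (ha i₀).ne'
  rw [S_scale univ a hai, N_scale a hai, mul_pow, mul_div_mul_left _ _ (pow_ne_zero 2 hai),
    le_div_iff₀ (N_pos ha), one_mul] at hfin
  exact hfin

end Pool.Agent.X188.MaxExp
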