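import Pool.Agent.X188.MaxExp.Final

set_option autoImplicit false
set_option linter.unusedSectionVars false

/-!
# Failure for at least seven variables
-/

open Finset

namespace Pool.Agent.X188.MaxExp

variable {ι : Type*} [DecidableEq ι]

theorem alt_sum_choose (m : ℕ) :
    ∑ k ∈ Finset.range (m + 1), (m.choose k : ℝ) * ((-1 : ℝ) ^ k / (1 + k)) = 1 / (m + 1) := by
  have hm : (m + 1 : ℝ) ≠ 0 := by positivity
  rw [eq_div_iff hm, Finset.sum_mul]
  have h1 : ∀ k ∈ Finset.range (m + 1),
      (m.choose k : ℝ) * ((-1 : ℝ) ^ k / (1 + k)) * (m + 1) =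
        -(((-1 : ℝ) ^ (k + 1)) * ((m + 1).choose (k + 1) : ℝ)) := by
    intro k _
    have h := Nat.add_one_mul_choose_eq m k
    have h' : ((m : ℝ) + 1) * (m.choose k : ℝ) = ((m + 1).choose (k + 1) : ℝ) * (k + 1) := by
      exact_mod_cast h
    have hk : (1 + k : ℝ) ≠ 0 := by positivity
    field_simp
    rw [pow_succ]
    linear_combination ((-1 : ℝ) ^ k) * h'
  rw [Finset.sum_congr rfl h1, Finset.sum_neg_distrib]
  have h2 := Int.alternating_sum_range_choose_of_ne (n := m + 1) (Nat.succ_ne_zero m)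
  rw [Finset.sum_range_succ'] at h2
  have h3 : (∑ k ∈ Finset.range (m + 1), ((-1 : ℝ) ^ (k + 1)) * ((m + 1).choose (k + 1) : ℝ)) +
      1 = 0 := by
    have := congrArg (fun z : ℤ => (z : ℝ)) h2
    push_cast at this
    simpa using this
  linarith

theorem S_one (s : Finset ι) : S s (fun _ => (1 : ℝ)) = ((harmonic s.card : ℚ) : ℝ) := by
  induction s using Finset.induction_on with
  | empty => simp [S]
  | insert i s hi ih =>
    rw [S_insert hi (fun _ _ => one_pos) one_pos, ih, T_const, Finset.card_insert_of_notMem hi,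
      harmonic_succ]
    have h := alt_sum_choose s.card
    simp only [mul_one]
    rw [h]
    push_cast
    ring

theorem harmonic_sq_lt (n : ℕ) (hn : 7 ≤ n) : ((harmonic n : ℚ) : ℝ) ^ 2 < n := by
  induction n, hn using Nat.le_induction with
  | base =>
    have : harmonic 7 = 363 / 140 := by
      simp [harmonic, Finset.sum_range_succ]
      norm_num
    rw [this]
    norm_num
  | succ n hn ih =>
    rw [harmonic_succ]
    push_cast
    set h : ℝ := ((harmonic n : ℚ) : ℝ) with hh
    have hn' : (7 : ℝ) ≤ n := by exact_mod_cast hn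
    have h1 : h ≤ n / 2 := by
      by_contra hcon
      push Not at hcon
      nlinarith
    have hp : (0 : ℝ) < n + 1 := by linarith
    have h2 : 2 * h * ((n : ℝ) + 1)⁻¹ + (((n : ℝ) + 1)⁻¹) ^ 2 ≤ 1 := by
      have h3 : 2 * h * ((n : ℝ) + 1)⁻¹ + (((n : ℝ) + 1)⁻¹) ^ 2 =
          (2 * h * (n + 1) + 1) / ((n : ℝ) + 1) ^ 2 := by
        field_simp
      rw [h3, div_le_one (by positivity)]
      nlinarith
    nlinarith

end Pool.Agent.X188.MaxExp
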