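import Mathlib

set_option autoImplicit false

/-!
# The case of equal rates
-/

namespace Pool.Agent.X188.MaxExp

theorem F_1 {t : ℝ} (ht : 0 ≤ t) : ((1) / (1 * (1 + t))) + (1 + (-1) / (1 + 1 * (1 + t))) =
    (3 + 3 * t + 1 * t ^ 2) / (1 * (1 + t) * ((2 + 1 * t))) := by
  have h0 : 1 + t ≠ 0 := by positivity
  have h1 : 1 + 1 * (1 + t) ≠ 0 := by positivity
  have g1 : 2 + 1 * t ≠ 0 := by positivity
  field_simp
  ring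

theorem D_1 {t : ℝ} (ht : 0 ≤ t) : 1 + (-1) / (1 + 1 * (1 + t)) ^ 2 =
    (3 + 4 * t + 1 * t ^ 2) / ((2 + 1 * t)) ^ 2 := by
  have h1 : 1 + 1 * (1 + t) ≠ 0 := by positivity
  have g1 : 2 + 1 * t ≠ 0 := by positivity
  field_simp
  ring

theorem FD_1 {t : ℝ} (ht : 0 ≤ t) :
    1 ≤ (((1) / (1 * (1 + t))) + (1 + (-1) / (1 + 1 * (1 + t)))) * (1 + (-1) / (1 + 1 * (1 + t)) ^ 2) := by
  rw [F_1 ht, D_1 ht, div_mul_div_comm, le_div_iff₀ (by positivity), one_mul, ← sub_nonneg]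
  have h : (3 + 3 * t + 1 * t ^ 2) * (3 + 4 * t + 1 * t ^ 2) -
      1 * (1 + t) * ((2 + 1 * t)) * ((2 + 1 * t)) ^ 2 =
      1 + 1 * t := by ring
  rw [h]
  positivity

theorem F_2 {t : ℝ} (ht : 0 ≤ t) : ((2) / (1 * (1 + t)) + (-1) / (2 * (1 + t))) + (1 + (-2) / (1 + 1 * (1 + t)) + (1) / (1 + 2 * (1 + t))) =
    (22 + 33 * t + 18 * t ^ 2 + 4 * t ^ 3) / (2 * (1 + t) * ((2 + 1 * t) * (3 + 2 * t))) := by
  have h0 : 1 + t ≠ 0 := by positivity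
  have h1 : 1 + 1 * (1 + t) ≠ 0 := by positivity
  have g1 : 2 + 1 * t ≠ 0 := by positivity
  have h2 : 1 + 2 * (1 + t) ≠ 0 := by positivity
  have g2 : 3 + 2 * t ≠ 0 := by positivity
  field_simp
  ring

theorem D_2 {t : ℝ} (ht : 0 ≤ t) : 1 + (-2) / (1 + 1 * (1 + t)) ^ 2 + (1) / (1 + 2 * (1 + t)) ^ 2 =
    (22 + 64 * t + 66 * t ^ 2 + 28 * t ^ 3 + 4 * t ^ 4) / ((2 + 1 * t) * (3 + 2 * t)) ^ 2 := by
  have h1 : 1 + 1 * (1 + t) ≠ 0 := by positivity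
  have g1 : 2 + 1 * t ≠ 0 := by positivity
  have h2 : 1 + 2 * (1 + t) ≠ 0 := by positivity
  have g2 : 3 + 2 * t ≠ 0 := by positivity
  field_simp
  ring

theorem FD_2 {t : ℝ} (ht : 0 ≤ t) :
    1 ≤ (((2) / (1 * (1 + t)) + (-1) / (2 * (1 + t))) + (1 + (-2) / (1 + 1 * (1 + t)) + (1) / (1 + 2 * (1 + t)))) * (1 + (-2) / (1 + 1 * (1 + t)) ^ 2 + (1) / (1 + 2 * (1 + t)) ^ 2) := by
  rw [F_2 ht, D_2 ht, div_mul_div_comm, le_div_iff₀ (by positivity), one_mul, ← sub_nonneg]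
  have h : (22 + 33 * t + 18 * t ^ 2 + 4 * t ^ 3) * (22 + 64 * t + 66 * t ^ 2 + 28 * t ^ 3 + 4 * t ^ 4) -
      2 * (1 + t) * ((2 + 1 * t) * (3 + 2 * t)) * ((2 + 1 * t) * (3 + 2 * t)) ^ 2 =
      52 + 190 * t + 252 * t ^ 2 + 144 * t ^ 3 + 30 * t ^ 4 := by ring
  rw [h]
  positivity

theorem F_3 {t : ℝ} (ht : 0 ≤ t) : ((3) / (1 * (1 + t)) + (-3) / (2 * (1 + t)) + (1) / (3 * (1 + t))) + (1 + (-3) / (1 + 1 * (1 + t)) + (3) / (1 + 2 * (1 + t)) + (-1) / (1 + 3 * (1 + t))) =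
    (300 + 650 * t + 535 * t ^ 2 + 210 * t ^ 3 + 36 * t ^ 4) / (6 * (1 + t) * ((2 + 1 * t) * (3 + 2 * t) * (4 + 3 * t))) := by
  have h0 : 1 + t ≠ 0 := by positivity
  have h1 : 1 + 1 * (1 + t) ≠ 0 := by positivity
  have g1 : 2 + 1 * t ≠ 0 := by positivity
  have h2 : 1 + 2 * (1 + t) ≠ 0 := by positivity
  have g2 : 3 + 2 * t ≠ 0 := by positivity
  have h3 : 1 + 3 * (1 + t) ≠ 0 := by positivity
  have g3 : 4 + 3 * t ≠ 0 := by positivity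
  field_simp
  ring

theorem D_3 {t : ℝ} (ht : 0 ≤ t) : 1 + (-3) / (1 + 1 * (1 + t)) ^ 2 + (3) / (1 + 2 * (1 + t)) ^ 2 + (-1) / (1 + 3 * (1 + t)) ^ 2 =
    (300 + 1380 * t + 2580 * t ^ 2 + 2496 * t ^ 3 + 1308 * t ^ 4 + 348 * t ^ 5 + 36 * t ^ 6) / ((2 + 1 * t) * (3 + 2 * t) * (4 + 3 * t)) ^ 2 := by
  have h1 : 1 + 1 * (1 + t) ≠ 0 := by positivity
  have g1 : 2 + 1 * t ≠ 0 := by positivity
  have h2 : 1 + 2 * (1 + t) ≠ 0 := by positivity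
  have g2 : 3 + 2 * t ≠ 0 := by positivity
  have h3 : 1 + 3 * (1 + t) ≠ 0 := by positivity
  have g3 : 4 + 3 * t ≠ 0 := by positivity
  field_simp
  ring

theorem FD_3 {t : ℝ} (ht : 0 ≤ t) :
    1 ≤ (((3) / (1 * (1 + t)) + (-3) / (2 * (1 + t)) + (1) / (3 * (1 + t))) + (1 + (-3) / (1 + 1 * (1 + t)) + (3) / (1 + 2 * (1 + t)) + (-1) / (1 + 3 * (1 + t)))) * (1 + (-3) / (1 + 1 * (1 + t)) ^ 2 + (3) / (1 + 2 * (1 + t)) ^ 2 + (-1) / (1 + 3 * (1 + t)) ^ 2) := by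
  rw [F_3 ht, D_3 ht, div_mul_div_comm, le_div_iff₀ (by positivity), one_mul, ← sub_nonneg]
  have h : (300 + 650 * t + 535 * t ^ 2 + 210 * t ^ 3 + 36 * t ^ 4) * (300 + 1380 * t + 2580 * t ^ 2 + 2496 * t ^ 3 + 1308 * t ^ 4 + 348 * t ^ 5 + 36 * t ^ 6) -
      6 * (1 + t) * ((2 + 1 * t) * (3 + 2 * t) * (4 + 3 * t)) * ((2 + 1 * t) * (3 + 2 * t) * (4 + 3 * t)) ^ 2 =
      7056 + 49128 * t + 139788 * t ^ 2 + 213516 * t ^ 3 + 190572 * t ^ 4 + 99900 * t ^ 5 + 28578 * t ^ 6 + 3450 * t ^ 7 := by ring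
  rw [h]
  positivity

theorem F_4 {t : ℝ} (ht : 0 ≤ t) : ((4) / (1 * (1 + t)) + (-6) / (2 * (1 + t)) + (4) / (3 * (1 + t)) + (-1) / (4 * (1 + t))) + (1 + (-4) / (1 + 1 * (1 + t)) + (6) / (1 + 2 * (1 + t)) + (-4) / (1 + 3 * (1 + t)) + (1) / (1 + 4 * (1 + t))) =
    (3288 + 9590 * t + 11105 * t ^ 2 + 6530 * t ^ 3 + 2040 * t ^ 4 + 288 * t ^ 5) / (12 * (1 + t) * ((2 + 1 * t) * (3 + 2 * t) * (4 + 3 * t) * (5 + 4 * t))) := by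
  have h0 : 1 + t ≠ 0 := by positivity
  have h1 : 1 + 1 * (1 + t) ≠ 0 := by positivity
  have g1 : 2 + 1 * t ≠ 0 := by positivity
  have h2 : 1 + 2 * (1 + t) ≠ 0 := by positivity
  have g2 : 3 + 2 * t ≠ 0 := by positivity
  have h3 : 1 + 3 * (1 + t) ≠ 0 := by positivity
  have g3 : 4 + 3 * t ≠ 0 := by positivity
  have h4 : 1 + 4 * (1 + t) ≠ 0 := by positivity
  have g4 : 5 + 4 * t ≠ 0 := by positivity
  field_simp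
  ring

theorem D_4 {t : ℝ} (ht : 0 ≤ t) : 1 + (-4) / (1 + 1 * (1 + t)) ^ 2 + (6) / (1 + 2 * (1 + t)) ^ 2 + (-4) / (1 + 3 * (1 + t)) ^ 2 + (1) / (1 + 4 * (1 + t)) ^ 2 =
    (6576 + 41808 * t + 114648 * t ^ 2 + 176736 * t ^ 3 + 167040 * t ^ 4 + 98736 * t ^ 5 + 35448 * t ^ 6 + 7008 * t ^ 7 + 576 * t ^ 8) / ((2 + 1 * t) * (3 + 2 * t) * (4 + 3 * t) * (5 + 4 * t)) ^ 2 := by
  have h1 : 1 + 1 * (1 + t) ≠ 0 := by positivity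
  have g1 : 2 + 1 * t ≠ 0 := by positivity
  have h2 : 1 + 2 * (1 + t) ≠ 0 := by positivity
  have g2 : 3 + 2 * t ≠ 0 := by positivity
  have h3 : 1 + 3 * (1 + t) ≠ 0 := by positivity
  have g3 : 4 + 3 * t ≠ 0 := by positivity
  have h4 : 1 + 4 * (1 + t) ≠ 0 := by positivity
  have g4 : 5 + 4 * t ≠ 0 := by positivity
  field_simp
  ring

theorem FD_4 {t : ℝ} (ht : 0 ≤ t) :
    1 ≤ (((4) / (1 * (1 + t)) + (-6) / (2 * (1 + t)) + (4) / (3 * (1 + t)) + (-1) / (4 * (1 + t))) + (1 + (-4) / (1 + 1 * (1 + t)) + (6) / (1 + 2 * (1 + t)) + (-4) / (1 + 3 * (1 + t)) + (1) / (1 + 4 * (1 + t)))) * (1 + (-4) / (1 + 1 * (1 + t)) ^ 2 + (6) / (1 + 2 * (1 + t)) ^ 2 + (-4) / (1 + 3 * (1 + t)) ^ 2 + (1) / (1 + 4 * (1 + t)) ^ 2) := by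
  rw [F_4 ht, D_4 ht, div_mul_div_comm, le_div_iff₀ (by positivity), one_mul, ← sub_nonneg]
  have h : (3288 + 9590 * t + 11105 * t ^ 2 + 6530 * t ^ 3 + 2040 * t ^ 4 + 288 * t ^ 5) * (6576 + 41808 * t + 114648 * t ^ 2 + 176736 * t ^ 3 + 167040 * t ^ 4 + 98736 * t ^ 5 + 35448 * t ^ 6 + 7008 * t ^ 7 + 576 * t ^ 8) -
      12 * (1 + t) * ((2 + 1 * t) * (3 + 2 * t) * (4 + 3 * t) * (5 + 4 * t)) * ((2 + 1 * t) * (3 + 2 * t) * (4 + 3 * t) * (5 + 4 * t)) ^ 2 =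
      885888 + 10794144 * t + 52263504 * t ^ 2 + 140022816 * t ^ 3 + 235595304 * t ^ 4 + 263523240 * t ^ 5 + 199984476 * t ^ 6 + 102175884 * t ^ 7 + 33748416 * t ^ 8 + 6522624 * t ^ 9 + 561120 * t ^ 10 := by ring
  rw [h]
  positivity

theorem F_5 {t : ℝ} (ht : 0 ≤ t) : ((5) / (1 * (1 + t)) + (-10) / (2 * (1 + t)) + (10) / (3 * (1 + t)) + (-5) / (4 * (1 + t)) + (1) / (5 * (1 + t))) + (1 + (-5) / (1 + 1 * (1 + t)) + (10) / (1 + 2 * (1 + t)) + (-10) / (1 + 3 * (1 + t)) + (5) / (1 + 4 * (1 + t)) + (-1) / (1 + 5 * (1 + t))) =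
    (105840 + 393372 * t + 601748 * t ^ 2 + 489377 * t ^ 3 + 227738 * t ^ 4 + 59640 * t ^ 5 + 7200 * t ^ 6) / (60 * (1 + t) * ((2 + 1 * t) * (3 + 2 * t) * (4 + 3 * t) * (5 + 4 * t) * (6 + 5 * t))) := by
  have h0 : 1 + t ≠ 0 := by positivity
  have h1 : 1 + 1 * (1 + t) ≠ 0 := by positivity
  have g1 : 2 + 1 * t ≠ 0 := by positivity
  have h2 : 1 + 2 * (1 + t) ≠ 0 := by positivity
  have g2 : 3 + 2 * t ≠ 0 := by positivity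
  have h3 : 1 + 3 * (1 + t) ≠ 0 := by positivity
  have g3 : 4 + 3 * t ≠ 0 := by positivity
  have h4 : 1 + 4 * (1 + t) ≠ 0 := by positivity
  have g4 : 5 + 4 * t ≠ 0 := by positivity
  have h5 : 1 + 5 * (1 + t) ≠ 0 := by positivity
  have g5 : 6 + 5 * t ≠ 0 := by positivity
  field_simp
  ring

theorem D_5 {t : ℝ} (ht : 0 ≤ t) : 1 + (-5) / (1 + 1 * (1 + t)) ^ 2 + (10) / (1 + 2 * (1 + t)) ^ 2 + (-10) / (1 + 3 * (1 + t)) ^ 2 + (5) / (1 + 4 * (1 + t)) ^ 2 + (-1) / (1 + 5 * (1 + t)) ^ 2 =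
    (211680 + 1727040 * t + 6282360 * t ^ 2 + 13403040 * t ^ 3 + 18546360 * t ^ 4 + 17362080 * t ^ 5 + 11110440 * t ^ 6 + 4784160 * t ^ 7 + 1320840 * t ^ 8 + 209760 * t ^ 9 + 14400 * t ^ 10) / ((2 + 1 * t) * (3 + 2 * t) * (4 + 3 * t) * (5 + 4 * t) * (6 + 5 * t)) ^ 2 := by
  have h1 : 1 + 1 * (1 + t) ≠ 0 := by positivity
  have g1 : 2 + 1 * t ≠ 0 := by positivity
  have h2 : 1 + 2 * (1 + t) ≠ 0 := by positivity
  have g2 : 3 + 2 * t ≠ 0 := by positivity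
  have h3 : 1 + 3 * (1 + t) ≠ 0 := by positivity
  have g3 : 4 + 3 * t ≠ 0 := by positivity
  have h4 : 1 + 4 * (1 + t) ≠ 0 := by positivity
  have g4 : 5 + 4 * t ≠ 0 := by positivity
  have h5 : 1 + 5 * (1 + t) ≠ 0 := by positivity
  have g5 : 6 + 5 * t ≠ 0 := by positivity
  field_simp
  ring

theorem FD_5 {t : ℝ} (ht : 0 ≤ t) :
    1 ≤ (((5) / (1 * (1 + t)) + (-10) / (2 * (1 + t)) + (10) / (3 * (1 + t)) + (-5) / (4 * (1 + t)) + (1) / (5 * (1 + t))) + (1 + (-5) / (1 + 1 * (1 + t)) + (10) / (1 + 2 * (1 + t)) + (-10) / (1 + 3 * (1 + t)) + (5) / (1 + 4 * (1 + t)) + (-1) / (1 + 5 * (1 + t)))) * (1 + (-5) / (1 + 1 * (1 + t)) ^ 2 + (10) / (1 + 2 * (1 + t)) ^ 2 + (-10) / (1 + 3 * (1 + t)) ^ 2 + (5) / (1 + 4 * (1 + t)) ^ 2 + (-1) / (1 + 5 * (1 + t)) ^ 2) := by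
  rw [F_5 ht, D_5 ht, div_mul_div_comm, le_div_iff₀ (by positivity), one_mul, ← sub_nonneg]
  have h : (105840 + 393372 * t + 601748 * t ^ 2 + 489377 * t ^ 3 + 227738 * t ^ 4 + 59640 * t ^ 5 + 7200 * t ^ 6) * (211680 + 1727040 * t + 6282360 * t ^ 2 + 13403040 * t ^ 3 + 18546360 * t ^ 4 + 17362080 * t ^ 5 + 11110440 * t ^ 6 + 4784160 * t ^ 7 + 1320840 * t ^ 8 + 209760 * t ^ 9 + 14400 * t ^ 10) -
      60 * (1 + t) * ((2 + 1 * t) * (3 + 2 * t) * (4 + 3 * t) * (5 + 4 * t) * (6 + 5 * t)) * ((2 + 1 * t) * (3 + 2 * t) * (4 + 3 * t) * (5 + 4 * t) * (6 + 5 * t)) ^ 2 =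
      9331200 + 5158546560 * t + 50175832320 * t ^ 2 + 224859517440 * t ^ 3 + 610958076000 * t ^ 4 + 1119825523800 * t ^ 5 + 1458173035440 * t ^ 6 + 1382940622440 * t ^ 7 + 962430018480 * t ^ 8 + 487746591900 * t ^ 9 + 175534530540 * t ^ 10 + 42580959120 * t ^ 11 + 6250866720 * t ^ 12 + 419929440 * t ^ 13 := by ring
  rw [h]
  positivity

end Pool.Agent.X188.MaxExp
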