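import Pool.Agent.X188.MaxExp.Min
import Pool.Agent.X188.MaxExp.OneVar

set_option autoImplicit false
set_option linter.unusedSectionVars false

/-!
# The inequality for at most six variables
-/

open Finset MeasureTheory

namespace Pool.Agent.X188.MaxExp

variable {ι : Type*} [DecidableEq ι]

theorem S_const (s : Finset ι) (α : ℝ) : S s (fun _ => α) =
    ∑ k ∈ Finset.range (s.card + 1), (s.card.choose k : ℝ) * ((-1 : ℝ) ^ (k + 1) / (k * α)) := by
  unfold S
  have h : ∑ J ∈ s.powerset.erase ∅, (-1 : ℝ) ^ (J.card + 1) / (∑ _j ∈ J, α) =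
      ∑ J ∈ s.powerset, (-1 : ℝ) ^ (J.card + 1) / ((J.card : ℝ) * α) := by
    rw [← Finset.add_sum_erase s.powerset _ (Finset.empty_mem_powerset s)]
    simp
  rw [h]
  have h2 := Finset.sum_powerset_apply_card (x := s)
    (fun k : ℕ => (-1 : ℝ) ^ (k + 1) / ((k : ℝ) * α))
  simp only [nsmul_eq_mul] at h2
  exact h2

theorem T_const (s : Finset ι) (α : ℝ) : T s (fun _ => α) 1 =
    ∑ k ∈ Finset.range (s.card + 1), (s.card.choose k : ℝ) * ((-1 : ℝ) ^ k / (1 + k * α)) := by
  unfold T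
  have h2 := Finset.sum_powerset_apply_card (x := s)
    (fun k : ℕ => (-1 : ℝ) ^ k / (1 + (k : ℝ) * α))
  simp only [nsmul_eq_mul] at h2
  rw [← h2]
  refine Finset.sum_congr rfl (fun J _ => by simp)

theorem T2_const (s : Finset ι) (α : ℝ) : T2 s (fun _ => α) 1 =
    ∑ k ∈ Finset.range (s.card + 1), (s.card.choose k : ℝ) * ((-1 : ℝ) ^ k / (1 + k * α) ^ 2) := by
  unfold T2
  have h2 := Finset.sum_powerset_apply_card (x := s)
    (fun k : ℕ => (-1 : ℝ) ^ k / (1 + (k : ℝ) * α) ^ 2)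
  simp only [nsmul_eq_mul] at h2
  rw [← h2]
  refine Finset.sum_congr rfl (fun J _ => by simp)

theorem equal_rates {s : Finset ι} (hs : s.card ≤ 5) {α : ℝ} (hα : 1 ≤ α) :
    1 ≤ (S s (fun _ => α) + T s (fun _ => α) 1) * T2 s (fun _ => α) 1 := by
  rw [S_const, T_const, T2_const]
  obtain ⟨t, ht, rfl⟩ : ∃ t, 0 ≤ t ∧ α = 1 + t := ⟨α - 1, by linarith, by ring⟩
  generalize s.card = m at hs ⊢
  interval_cases m
  · norm_num
  · have h := FD_1 ht
    refine le_trans h (le_of_eq ?_)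
    have c0 : ((1 : ℕ).choose 0 : ℝ) = 1 := by norm_num [Nat.choose]
    have c1 : ((1 : ℕ).choose 1 : ℝ) = 1 := by norm_num [Nat.choose]
    simp only [Finset.sum_range_succ, Finset.sum_range_zero, Nat.cast_zero, zero_mul, div_zero,
      mul_zero, add_zero, zero_add, Nat.cast_one, Nat.cast_ofNat, c0, c1]
    ring
  · have h := FD_2 ht
    refine le_trans h (le_of_eq ?_)
    have c0 : ((2 : ℕ).choose 0 : ℝ) = 1 := by norm_num [Nat.choose]
    have c1 : ((2 : ℕ).choose 1 : ℝ) = 2 := by norm_num [Nat.choose]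
    have c2 : ((2 : ℕ).choose 2 : ℝ) = 1 := by norm_num [Nat.choose]
    simp only [Finset.sum_range_succ, Finset.sum_range_zero, Nat.cast_zero, zero_mul, div_zero,
      mul_zero, add_zero, zero_add, Nat.cast_one, Nat.cast_ofNat, c0, c1, c2]
    ring
  · have h := FD_3 ht
    refine le_trans h (le_of_eq ?_)
    have c0 : ((3 : ℕ).choose 0 : ℝ) = 1 := by norm_num [Nat.choose]
    have c1 : ((3 : ℕ).choose 1 : ℝ) = 3 := by norm_num [Nat.choose]
    have c2 : ((3 : ℕ).choose 2 : ℝ) = 3 := by norm_num [Nat.choose]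
    have c3 : ((3 : ℕ).choose 3 : ℝ) = 1 := by norm_num [Nat.choose]
    simp only [Finset.sum_range_succ, Finset.sum_range_zero, Nat.cast_zero, zero_mul, div_zero,
      mul_zero, add_zero, zero_add, Nat.cast_one, Nat.cast_ofNat, c0, c1, c2, c3]
    ring
  · have h := FD_4 ht
    refine le_trans h (le_of_eq ?_)
    have c0 : ((4 : ℕ).choose 0 : ℝ) = 1 := by norm_num [Nat.choose]
    have c1 : ((4 : ℕ).choose 1 : ℝ) = 4 := by norm_num [Nat.choose]
    have c2 : ((4 : ℕ).choose 2 : ℝ) = 6 := by norm_num [Nat.choose]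
    have c3 : ((4 : ℕ).choose 3 : ℝ) = 4 := by norm_num [Nat.choose]
    have c4 : ((4 : ℕ).choose 4 : ℝ) = 1 := by norm_num [Nat.choose]
    simp only [Finset.sum_range_succ, Finset.sum_range_zero, Nat.cast_zero, zero_mul, div_zero,
      mul_zero, add_zero, zero_add, Nat.cast_one, Nat.cast_ofNat, c0, c1, c2, c3, c4]
    ring
  · have h := FD_5 ht
    refine le_trans h (le_of_eq ?_)
    have c0 : ((5 : ℕ).choose 0 : ℝ) = 1 := by norm_num [Nat.choose]
    have c1 : ((5 : ℕ).choose 1 : ℝ) = 5 := by norm_num [Nat.choose]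
    have c2 : ((5 : ℕ).choose 2 : ℝ) = 10 := by norm_num [Nat.choose]
    have c3 : ((5 : ℕ).choose 3 : ℝ) = 10 := by norm_num [Nat.choose]
    have c4 : ((5 : ℕ).choose 4 : ℝ) = 5 := by norm_num [Nat.choose]
    have c5 : ((5 : ℕ).choose 5 : ℝ) = 1 := by norm_num [Nat.choose]
    simp only [Finset.sum_range_succ, Finset.sum_range_zero, Nat.cast_zero, zero_mul, div_zero,
      mul_zero, add_zero, zero_add, Nat.cast_one, Nat.cast_ofNat, c0, c1, c2, c3, c4, c5]
    ring

/-- The product inequality with smallest rate `1`. -/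
theorem product_one [Fintype ι] {s : Finset ι} (hs : s.card ≤ 5) {a : ι → ℝ}
    (ha : ∀ j ∈ s, 1 ≤ a j) : 1 ≤ (S s a + T s a 1) * T2 s a 1 := by
  have ha0 : ∀ j ∈ s, 0 < a j := fun j hj => by linarith [ha j hj]
  set F := S s a + T s a 1 with hF
  have hFp : 0 < F := add_pos_of_nonneg_of_pos (S_nonneg ha0) (T_pos ha0 one_pos)
  obtain ⟨α, hα, hmin⟩ := symmetric_min ha (u := 1 / F) (by positivity)
  have hα0 : ∀ j ∈ s, 0 < (fun _ : ι => α) j := fun j _ => by
    show 0 < α
    linarith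
  have hFD := equal_rates hs hα
  set F' := S s (fun _ => α) + T s (fun _ => α) 1 with hF'
  set D' := T2 s (fun _ => α) 1 with hD'
  have hFp' : 0 < F' := add_pos_of_nonneg_of_pos (S_nonneg hα0) (T_pos hα0 one_pos)
  unfold Psi at hmin
  rw [← hF, ← hF', ← hD'] at hmin
  have h1 : 1 / F' ≤ D' := by
    rw [div_le_iff₀ hFp', mul_comm]
    exact hFD
  have h2 : 2 * (1 / F) ≤ 1 / F' + (1 / F) ^ 2 * F' := by
    have h3 : 1 / F' + (1 / F) ^ 2 * F' - 2 * (1 / F) = (F' - F) ^ 2 / (F' * F ^ 2) := by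
      field_simp
      ring
    have h4 : 0 ≤ (F' - F) ^ 2 / (F' * F ^ 2) := by positivity
    linarith
  have h5 : (1 / F) ^ 2 * F = 1 / F := by field_simp
  rw [h5] at hmin
  have h6 : 1 / F ≤ T2 s a 1 := by linarith
  rw [div_le_iff₀ hFp] at h6
  linarith [mul_comm F (T2 s a 1)]

theorem S_scale (s : Finset ι) (a : ι → ℝ) {c : ℝ} (hc : c ≠ 0) :
    S s (fun j => a j / c) = c * S s a := by
  unfold S
  rw [Finset.mul_sum]
  refine Finset.sum_congr rfl (fun J _ => ?_)
  rw [← Finset.sum_div, div_div_eq_mul_div]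
  ring

theorem T_scale (s : Finset ι) (a : ι → ℝ) {c : ℝ} (hc : c ≠ 0) :
    T s (fun j => a j / c) 1 = c * T s a c := by
  unfold T
  rw [Finset.mul_sum]
  refine Finset.sum_congr rfl (fun J _ => ?_)
  rw [← Finset.sum_div, show 1 + (∑ i ∈ J, a i) / c = (c + ∑ i ∈ J, a i) / c by field_simp,
    div_div_eq_mul_div]
  ring

theorem T2_scale (s : Finset ι) (a : ι → ℝ) {c : ℝ} (hc : c ≠ 0) :
    T2 s (fun j => a j / c) 1 = c ^ 2 * T2 s a c := by
  unfold T2
  rw [Finset.mul_sum]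
  refine Finset.sum_congr rfl (fun J _ => ?_)
  rw [← Finset.sum_div, show 1 + (∑ i ∈ J, a i) / c = (c + ∑ i ∈ J, a i) / c by field_simp,
    div_pow, div_div_eq_mul_div]
  ring

/-- The product inequality. -/
theorem product_ineq [Fintype ι] {s : Finset ι} (hs : s.card ≤ 5) {a : ι → ℝ} {c : ℝ}
    (hc : 0 < c) (ha : ∀ j ∈ s, c ≤ a j) : 1 ≤ (S s a + T s a c) * T2 s a c * c ^ 3 := by
  have h := product_one hs (a := fun j => a j / c) (fun j hj => by
    rw [le_div_iff₀ hc, one_mul]; exact ha j hj)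
  rw [S_scale s a hc.ne', T_scale s a hc.ne', T2_scale s a hc.ne'] at h
  linarith [show (c * S s a + c * T s a c) * (c ^ 2 * T2 s a c) =
    (S s a + T s a c) * T2 s a c * c ^ 3 by ring]

theorem S_insert {s : Finset ι} {i : ι} (hi : i ∉ s) {a : ι → ℝ} (ha : ∀ j ∈ s, 0 < a j)
    (hai : 0 < a i) : S (insert i s) a = S s a + T s a (a i) := by
  have ha' : ∀ j ∈ insert i s, 0 < a j := by
    intro j hj
    rcases Finset.mem_insert.1 hj with rfl | h
    · exact hai
    · exact ha j h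
  rw [← integral_one_sub_G ha', ← integral_one_sub_G ha, ← integral_exp_mul_G ha hai,
    ← integral_add (integrable_one_sub_G ha) (integrable_exp_mul_G ha hai)]
  congr 1
  funext x
  unfold G
  rw [Finset.prod_insert hi]
  ring

/-- derivative of the first shifted sum -/
theorem hasDerivAt_T {s : Finset ι} {a : ι → ℝ} (ha : ∀ j ∈ s, 0 < a j) {t : ℝ} (ht : 0 < t) :
    HasDerivAt (fun τ => T s a τ) (-T2 s a t) t := by
  unfold T T2
  rw [← Finset.sum_neg_distrib]
  refine HasDerivAt.fun_sum (fun J hJ => ?_)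
  have h0 : t + ∑ j ∈ J, a j ≠ 0 := by
    have := sum_nonneg_of ha hJ
    linarith
  have h1 : HasDerivAt (fun τ => τ + ∑ j ∈ J, a j) 1 t := by
    simpa using (hasDerivAt_id t).add_const (∑ j ∈ J, a j)
  have h2 := (h1.inv h0).const_mul ((-1 : ℝ) ^ J.card)
  refine (h2.congr_deriv ?_).congr_of_eventuallyEq ?_
  · ring
  · exact Filter.Eventually.of_forall (fun τ => by simp [div_eq_mul_inv])

end Pool.Agent.X188.MaxExp
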