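import Pool.Agent.X188.MaxExp.Sym

set_option autoImplicit false
set_option linter.unusedSectionVars false

/-!
# The minimum of the linearised functional is attained at equal rates, part 2
-/

open Finset MeasureTheory

namespace Pool.Agent.X188.MaxExp

variable {ι : Type*} [DecidableEq ι]

/-- the linearised functional -/
noncomputable def Psi (s : Finset ι) (a : ι → ℝ) (u : ℝ) : ℝ :=
  T2 s a 1 + u ^ 2 * (S s a + T s a 1)

theorem Psi_integrable {s : Finset ι} {a : ι → ℝ} (ha : ∀ j ∈ s, 0 < a j) (u : ℝ) :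
    IntegrableOn (fun x => x * (Real.exp (-(1 * x)) * G s a x) +
      u ^ 2 * ((1 - G s a x) + Real.exp (-(1 * x)) * G s a x)) (Set.Ioi 0) :=
  (integrable_x_exp_mul_G ha one_pos).add
    (((integrable_one_sub_G ha).add (integrable_exp_mul_G ha one_pos)).const_mul _)

theorem Psi_eq {s : Finset ι} {a : ι → ℝ} (ha : ∀ j ∈ s, 0 < a j) (u : ℝ) :
    Psi s a u = ∫ x in Set.Ioi (0 : ℝ), (x * (Real.exp (-(1 * x)) * G s a x) +
      u ^ 2 * ((1 - G s a x) + Real.exp (-(1 * x)) * G s a x)) := by
  have h1 := integrable_x_exp_mul_G ha one_pos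
  have h2 := integrable_one_sub_G ha
  have h3 := integrable_exp_mul_G ha one_pos
  have h23 : IntegrableOn (fun x => (1 - G s a x) + Real.exp (-(1 * x)) * G s a x)
    (Set.Ioi 0) := h2.add h3
  have h4 : IntegrableOn (fun x => u ^ 2 * ((1 - G s a x) + Real.exp (-(1 * x)) * G s a x))
    (Set.Ioi 0) := h23.const_mul _
  rw [integral_add h1 h4, integral_const_mul, integral_add h2 h3,
    integral_x_exp_mul_G ha one_pos, integral_one_sub_G ha, integral_exp_mul_G ha one_pos]
  rfl

theorem diff_eq (s : Finset ι) (a a' : ι → ℝ) (u x : ℝ) :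
    (G s a' x - G s a x) * v u x =
      (x * (Real.exp (-(1 * x)) * G s a' x) +
      u ^ 2 * ((1 - G s a' x) + Real.exp (-(1 * x)) * G s a' x)) -
      (x * (Real.exp (-(1 * x)) * G s a x) +
      u ^ 2 * ((1 - G s a x) + Real.exp (-(1 * x)) * G s a x)) := by
  unfold v
  ring

theorem diff_integrable {s : Finset ι} {a a' : ι → ℝ} (ha : ∀ j ∈ s, 0 < a j)
    (ha' : ∀ j ∈ s, 0 < a' j) (u : ℝ) :
    IntegrableOn (fun x => (G s a' x - G s a x) * v u x) (Set.Ioi 0) := by
  simp_rw [diff_eq]
  exact (Psi_integrable ha' u).sub (Psi_integrable ha u)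

theorem Psi_sub {s : Finset ι} {a a' : ι → ℝ} (ha : ∀ j ∈ s, 0 < a j)
    (ha' : ∀ j ∈ s, 0 < a' j) (u : ℝ) :
    Psi s a' u - Psi s a u = ∫ x in Set.Ioi (0 : ℝ), (G s a' x - G s a x) * v u x := by
  simp_rw [diff_eq]
  rw [integral_sub (Psi_integrable ha' u) (Psi_integrable ha u), ← Psi_eq ha', ← Psi_eq ha]

theorem G_erase {s : Finset ι} {i : ι} (hi : i ∈ s) (a : ι → ℝ) (x : ℝ) :
    G s a x = (1 - Real.exp (-(a i * x))) * G (s.erase i) a x := by
  unfold G
  exact (Finset.mul_prod_erase s _ hi).symm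

theorem G_congr {s : Finset ι} {a b : ι → ℝ} (h : ∀ j ∈ s, a j = b j) (x : ℝ) :
    G s a x = G s b x := by
  unfold G
  exact Finset.prod_congr rfl (fun j hj => by rw [h j hj])

theorem G_update {s : Finset ι} {i : ι} (hi : i ∈ s) (a : ι → ℝ) (c x : ℝ) :
    G s (Function.update a i c) x = (1 - Real.exp (-(c * x))) * G (s.erase i) a x := by
  rw [G_erase hi, Function.update_self]
  congr 1
  exact G_congr (fun j hj => Function.update_of_ne (Finset.ne_of_mem_erase hj) _ _) x

theorem Psi_congr {s : Finset ι} {a b : ι → ℝ} (h : ∀ j ∈ s, a j = b j) (u : ℝ) :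
    Psi s a u = Psi s b u := by
  have hs : ∀ J ∈ s.powerset, ∑ j ∈ J, a j = ∑ j ∈ J, b j := fun J hJ =>
    Finset.sum_congr rfl (fun j hj => h j (Finset.mem_powerset.1 hJ hj))
  unfold Psi T2 S T
  congr 1
  · exact Finset.sum_congr rfl (fun J hJ => by rw [hs J hJ])
  · congr 2
    · exact Finset.sum_congr rfl (fun J hJ => by rw [hs J (Finset.mem_of_mem_erase hJ)])
    · exact Finset.sum_congr rfl (fun J hJ => by rw [hs J hJ])

theorem Psi_continuousOn (s : Finset ι) (u : ℝ) :
    ContinuousOn (fun a : ι → ℝ => Psi s a u) {a | ∀ j, 0 < a j} := by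
  have hsum : ∀ J : Finset ι, Continuous fun a : ι → ℝ => ∑ j ∈ J, a j := fun J => by fun_prop
  unfold Psi T2 S T
  refine ContinuousOn.add ?_ (ContinuousOn.mul continuousOn_const (ContinuousOn.add ?_ ?_))
  · refine continuousOn_finsetSum _ (fun J hJ => ?_)
    refine ContinuousOn.div continuousOn_const
      ((continuous_const.add (hsum J)).pow 2).continuousOn (fun a ha => ?_)
    have h : 0 ≤ ∑ j ∈ J, a j := Finset.sum_nonneg (fun j _ => (ha j).le)
    positivity
  · refine continuousOn_finsetSum _ (fun J hJ => ?_)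
    refine ContinuousOn.div continuousOn_const (hsum J).continuousOn (fun a ha => ?_)
    exact (sum_pos_of (fun j _ => ha j) hJ).ne'
  · refine continuousOn_finsetSum _ (fun J hJ => ?_)
    refine ContinuousOn.div continuousOn_const
      (continuous_const.add (hsum J)).continuousOn (fun a ha => ?_)
    have h : 0 ≤ ∑ j ∈ J, a j := Finset.sum_nonneg (fun j _ => (ha j).le)
    positivity

/-- At a minimiser no two rates are different. -/
theorem no_pair {s : Finset ι} {a : ι → ℝ} {i j : ι} (hi : i ∈ s) (hj : j ∈ s)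
    (ha : ∀ j, 0 < a j) (hij : a j < a i) {u : ℝ} (hu : 0 < u)
    (h1 : Psi s a u ≤ Psi s (Function.update a i ((a j + a i) / 2)) u)
    (h2 : Psi s a u ≤ Psi s (Function.update a j ((a j + a i) / 2)) u) : False := by
  have hne : i ≠ j := by rintro rfl; exact lt_irrefl _ hij
  have hc : 0 < (a j + a i) / 2 := by have := ha i; have := ha j; positivity
  have hup : ∀ k l, 0 < Function.update a k ((a j + a i) / 2) l := by
    intro k l
    by_cases hkl : l = k
    · rw [hkl, Function.update_self]; exact hc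
    · rw [Function.update_of_ne hkl]; exact ha l
  have e1 : ∀ x, (G s (Function.update a i ((a j + a i) / 2)) x - G s a x) * v u x =
      -((G ((s.erase i).erase j) a x * ((1 - Real.exp (-(a j * x))) *
        (Real.exp (-((a j + a i) / 2 * x)) - Real.exp (-(a i * x))))) * v u x) := by
    intro x
    rw [G_update hi, G_erase hi a, G_erase (Finset.mem_erase.2 ⟨hne.symm, hj⟩) a]
    ring
  have e2 : ∀ x, (G s (Function.update a j ((a j + a i) / 2)) x - G s a x) * v u x =
      (G ((s.erase i).erase j) a x * ((1 - Real.exp (-(a i * x))) *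
        (Real.exp (-(a j * x)) - Real.exp (-((a j + a i) / 2 * x))))) * v u x := by
    intro x
    rw [G_update hj, G_erase hj a, G_erase (Finset.mem_erase.2 ⟨hne, hi⟩) a,
      Finset.erase_right_comm]
    ring
  have i1 := diff_integrable (s := s) (fun l _ => ha l) (fun l _ => hup i l) u
  have i2 := diff_integrable (s := s) (fun l _ => ha l) (fun l _ => hup j l) u
  have d1 := Psi_sub (s := s) (fun l _ => ha l) (fun l _ => hup i l) u
  have d2 := Psi_sub (s := s) (fun l _ => ha l) (fun l _ => hup j l) u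
  simp_rw [e1] at i1 d1
  simp_rw [e2] at i2 d2
  rw [integral_neg] at d1
  have i1' := i1.neg
  simp only [Pi.neg_def, neg_neg] at i1'
  exact exchange (ha j) hij hu (continuous_G _ a) (fun x hx => G_pos (fun l _ => ha l) hx)
    i1' i2 (by linarith) (by linarith)

/-- The minimum is attained at equal rates. -/
theorem symmetric_min [Fintype ι] {s : Finset ι} {a : ι → ℝ} (ha : ∀ j ∈ s, 1 ≤ a j)
    {u : ℝ} (hu : 0 < u) : ∃ α : ℝ, 1 ≤ α ∧ Psi s (fun _ => α) u ≤ Psi s a u := by
  classical
  set b : ι → ℝ := fun j => if j ∈ s then a j else 1 with hb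
  have hb1 : ∀ j, 1 ≤ b j := by
    intro j
    simp only [hb]
    split_ifs with h
    · exact ha j h
    · exact le_rfl
  obtain ⟨R, hR⟩ : ∃ R, ∀ j, b j ≤ R := by
    refine ⟨∑ j, b j, fun j => ?_⟩
    exact Finset.single_le_sum (f := b) (fun i _ => by linarith [hb1 i]) (Finset.mem_univ j)
  have hC : IsCompact (Set.pi Set.univ (fun _ : ι => Set.Icc (1 : ℝ) R)) :=
    isCompact_univ_pi (fun _ => isCompact_Icc)
  have hbC : b ∈ Set.pi Set.univ (fun _ : ι => Set.Icc (1 : ℝ) R) :=
    fun j _ => ⟨hb1 j, hR j⟩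
  have hsub : Set.pi Set.univ (fun _ : ι => Set.Icc (1 : ℝ) R) ⊆ {a | ∀ j, 0 < a j} := by
    intro c hc j
    have := (hc j (Set.mem_univ j)).1
    linarith
  obtain ⟨c, hcC, hcmin⟩ := hC.exists_isMinOn ⟨b, hbC⟩ ((Psi_continuousOn s u).mono hsub)
  have hc1 : ∀ j, 1 ≤ c j := fun j => (hcC j (Set.mem_univ j)).1
  have hcR : ∀ j, c j ≤ R := fun j => (hcC j (Set.mem_univ j)).2
  have hcb : Psi s c u ≤ Psi s a u := by
    have h1 : Psi s c u ≤ Psi s b u := hcmin hbC
    have h2 : Psi s b u = Psi s a u := Psi_congr (fun j hj => by simp [hb, hj]) u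
    linarith
  have hpair : ∀ i ∈ s, ∀ j ∈ s, ¬ c j < c i := by
    intro i hi j hj hlt
    have hmem : ∀ k, Function.update c k ((c j + c i) / 2) ∈
        Set.pi Set.univ (fun _ : ι => Set.Icc (1 : ℝ) R) := by
      intro k l _
      by_cases hkl : l = k
      · rw [hkl, Function.update_self]
        exact ⟨by linarith [hc1 i, hc1 j], by linarith [hcR i, hcR j]⟩
      · rw [Function.update_of_ne hkl]
        exact ⟨hc1 l, hcR l⟩
    exact no_pair hi hj (fun l => by linarith [hc1 l]) hlt hu (hcmin (hmem i)) (hcmin (hmem j))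
  rcases s.eq_empty_or_nonempty with rfl | ⟨i, hi⟩
  · exact ⟨1, le_rfl, (Psi_congr (by simp) u).le⟩
  · refine ⟨c i, hc1 i, ?_⟩
    refine le_trans (le_of_eq (Psi_congr (fun j hj => ?_) u)) hcb
    have h1 := hpair i hi j hj
    have h2 := hpair j hj i hi
    push Not at h1 h2
    exact le_antisymm h1 h2

end Pool.Agent.X188.MaxExp
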