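import Pool.Agent.X188.MaxExp.Basic

set_option autoImplicit false
set_option linter.unusedSectionVars false

/-!
# The minimum of the linearised functional is attained at equal rates
-/

open Finset MeasureTheory

namespace Pool.Agent.X188.MaxExp

theorem sinh_aux {g b : ℝ} (hg : 0 < g) (hb : g < b) {x : ℝ} (hx : 0 < x) :
    0 < b * (Real.sinh (g * x) * Real.cosh (b * x)) - g * (Real.cosh (g * x) * Real.sinh (b * x)) := by
  have hmono : StrictMonoOn (fun x : ℝ => b * (Real.sinh (g * x) * Real.cosh (b * x)) -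
      g * (Real.cosh (g * x) * Real.sinh (b * x))) (Set.Ici 0) := by
    refine strictMonoOn_of_deriv_pos (convex_Ici 0) (by fun_prop) (fun y hy => ?_)
    rw [interior_Ici] at hy
    have hy' : 0 < y := hy
    have h1 : HasDerivAt (fun x : ℝ => g * x) g y := by
      simpa using (hasDerivAt_id y).const_mul g
    have h2 : HasDerivAt (fun x : ℝ => b * x) b y := by
      simpa using (hasDerivAt_id y).const_mul b
    have h3 := ((h1.sinh.mul h2.cosh).const_mul b).sub ((h1.cosh.mul h2.sinh).const_mul g)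
    have h4 : deriv (fun x : ℝ => b * (Real.sinh (g * x) * Real.cosh (b * x)) -
      g * (Real.cosh (g * x) * Real.sinh (b * x))) y =
        (b ^ 2 - g ^ 2) * (Real.sinh (g * y) * Real.sinh (b * y)) := by
      have := h3.deriv
      simp only [Pi.mul_apply] at this
      refine Eq.trans this ?_
      ring
    rw [h4]
    have hs1 : 0 < Real.sinh (g * y) := Real.sinh_pos_iff.2 (mul_pos hg hy')
    have hs2 : 0 < Real.sinh (b * y) := Real.sinh_pos_iff.2 (mul_pos (hg.trans hb) hy')
    have : 0 < b ^ 2 - g ^ 2 := by nlinarith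
    positivity
  have h := hmono (Set.self_mem_Ici) (Set.mem_Ici.2 hx.le) hx
  simpa using h

theorem sinh_ratio {g b : ℝ} (hg : 0 < g) (hb : g < b) {x y : ℝ} (hx : 0 < x) (hxy : x < y) :
    Real.sinh (g * y) / Real.sinh (b * y) < Real.sinh (g * x) / Real.sinh (b * x) := by
  have hne : ∀ y : ℝ, 0 < y → Real.sinh (b * y) ≠ 0 := fun y hy =>
    (Real.sinh_pos_iff.2 (mul_pos (hg.trans hb) hy)).ne'
  have hanti : StrictAntiOn (fun x : ℝ => Real.sinh (g * x) / Real.sinh (b * x)) (Set.Ioi 0) := by
    refine strictAntiOn_of_deriv_neg (convex_Ioi 0) ?_ (fun y hy => ?_)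
    · refine ContinuousOn.div (by fun_prop) (by fun_prop) (fun y hy => hne y hy)
    · rw [interior_Ioi] at hy
      have hy' : 0 < y := hy
      have h1 : HasDerivAt (fun x : ℝ => g * x) g y := by
        simpa using (hasDerivAt_id y).const_mul g
      have h2 : HasDerivAt (fun x : ℝ => b * x) b y := by
        simpa using (hasDerivAt_id y).const_mul b
      have h3 := h1.sinh.div h2.sinh (hne y hy')
      have h4 := h3.deriv
      have h5 : deriv (fun x : ℝ => Real.sinh (g * x) / Real.sinh (b * x)) y =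
        -(b * (Real.sinh (g * y) * Real.cosh (b * y)) -
          g * (Real.cosh (g * y) * Real.sinh (b * y))) / Real.sinh (b * y) ^ 2 := by
        refine Eq.trans h4 ?_
        ring
      rw [h5]
      have h6 := sinh_aux hg hb hy'
      have h7 : 0 < Real.sinh (b * y) ^ 2 := by
        have := Real.sinh_pos_iff.2 (mul_pos (hg.trans hb) hy')
        positivity
      rw [neg_div]
      exact neg_neg_of_pos (div_pos h6 h7)
  exact hanti (Set.mem_Ioi.2 hx) (Set.mem_Ioi.2 (hx.trans hxy)) hxy

/-- the weight -/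
noncomputable def v (u x : ℝ) : ℝ := x * Real.exp (-(1 * x)) - u ^ 2 * (1 - Real.exp (-(1 * x)))

theorem continuous_v (u : ℝ) : Continuous (v u) := by
  unfold v
  fun_prop

theorem v_eq (u x : ℝ) : v u x = Real.exp (-x) * (x - u ^ 2 * (Real.exp x - 1)) := by
  unfold v
  have h : Real.exp (-x) * Real.exp x = 1 := by rw [← Real.exp_add]; simp
  rw [one_mul]
  linear_combination (u ^ 2) * h

theorem v_pos_of {u x y : ℝ} (hu : 0 < u) (hx : 0 < x) (hxy : x < y) (h : 0 ≤ v u y) :
    0 < v u x := by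
  have hy : 0 < y := hx.trans hxy
  rw [v_eq] at h ⊢
  have h1 : 0 ≤ y - u ^ 2 * (Real.exp y - 1) := nonneg_of_mul_nonneg_right h (Real.exp_pos _)
  refine mul_pos (Real.exp_pos _) ?_
  have h0 : (0 : ℝ) < 1 - x / y := by
    have : x / y < 1 := (div_lt_one hy).2 hxy
    linarith
  have h2 := strictConvexOn_exp.2 (Set.mem_univ (0 : ℝ)) (Set.mem_univ y) hy.ne h0
    (div_pos hx hy) (by ring)
  simp only [smul_eq_mul, mul_zero, zero_add, Real.exp_zero, mul_one] at h2
  rw [div_mul_cancel₀ _ hy.ne'] at h2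
  have h3 : Real.exp x - 1 < x / y * (Real.exp y - 1) := by linarith
  have h4 : u ^ 2 * (Real.exp x - 1) < u ^ 2 * (x / y * (Real.exp y - 1)) :=
    mul_lt_mul_of_pos_left h3 (by positivity)
  have h5 : u ^ 2 * (x / y * (Real.exp y - 1)) = x / y * (u ^ 2 * (Real.exp y - 1)) := by ring
  have h6 : x / y * (u ^ 2 * (Real.exp y - 1)) ≤ x / y * y :=
    mul_le_mul_of_nonneg_left (by linarith) (div_pos hx hy).le
  rw [div_mul_cancel₀ _ hy.ne'] at h6
  linarith

theorem v_neg {u : ℝ} (hu : 0 < u) : v u (2 / u ^ 2) < 0 := by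
  rw [v_eq]
  refine mul_neg_of_pos_of_neg (Real.exp_pos _) ?_
  set X := 2 / u ^ 2 with hX
  have hXp : 0 < X := by positivity
  have h1 : 1 + X + X ^ 2 / 2 ≤ Real.exp X := Real.quadratic_le_exp_of_nonneg hXp.le
  have h2 : u ^ 2 * X = 2 := by rw [hX]; field_simp
  have h3 : u ^ 2 * (X + X ^ 2 / 2) ≤ u ^ 2 * (Real.exp X - 1) :=
    mul_le_mul_of_nonneg_left (by linarith) (by positivity)
  have h4 : u ^ 2 * (X + X ^ 2 / 2) = 2 + X := by
    linear_combination (1 + X / 2) * h2
  linarith

/-- ratio of the two weights -/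
theorem ratio_eq {p q x : ℝ} (hp : 0 < p) (hq : p < q) (hx : 0 < x) :
    (1 - Real.exp (-(p * x))) * (Real.exp (-((p + q) / 2 * x)) - Real.exp (-(q * x))) =
      Real.sinh (p / 2 * x) / Real.sinh (q / 2 * x) *
        ((1 - Real.exp (-(q * x))) * (Real.exp (-(p * x)) - Real.exp (-((p + q) / 2 * x)))) := by
  have hs : Real.sinh (q / 2 * x) ≠ 0 :=
    (Real.sinh_pos_iff.2 (mul_pos (by linarith) hx)).ne'
  rw [div_mul_eq_mul_div (Real.sinh (p / 2 * x)) (Real.sinh (q / 2 * x)), eq_div_iff hs,
    Real.sinh_eq, Real.sinh_eq]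
  set A := Real.exp (-(p / 2 * x)) with hA
  set B := Real.exp (-(q / 2 * x)) with hB
  have hA0 : A ≠ 0 := (Real.exp_pos _).ne'
  have hB0 : B ≠ 0 := (Real.exp_pos _).ne'
  have e1 : Real.exp (-(p * x)) = A ^ 2 := by
    rw [hA, ← Real.exp_nat_mul]; congr 1; push_cast; ring
  have e2 : Real.exp (-(q * x)) = B ^ 2 := by
    rw [hB, ← Real.exp_nat_mul]; congr 1; push_cast; ring
  have e3 : Real.exp (-((p + q) / 2 * x)) = A * B := by
    rw [hA, hB, ← Real.exp_add]; congr 1; ring
  have e4 : Real.exp (p / 2 * x) = A⁻¹ := by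
    rw [hA, ← Real.exp_neg, neg_neg]
  have e5 : Real.exp (q / 2 * x) = B⁻¹ := by
    rw [hB, ← Real.exp_neg, neg_neg]
  rw [e1, e2, e3, e4, e5]
  field_simp

/-- The exchange lemma. -/
theorem exchange {p q u : ℝ} (hp : 0 < p) (hq : p < q) (hu : 0 < u) {P : ℝ → ℝ}
    (hPc : Continuous P) (hP : ∀ x, 0 < x → 0 < P x)
    (hi1 : IntegrableOn (fun x => (P x * ((1 - Real.exp (-(p * x))) *
      (Real.exp (-((p + q) / 2 * x)) - Real.exp (-(q * x))))) * v u x) (Set.Ioi 0))
    (hi2 : IntegrableOn (fun x => (P x * ((1 - Real.exp (-(q * x))) *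
      (Real.exp (-(p * x)) - Real.exp (-((p + q) / 2 * x))))) * v u x) (Set.Ioi 0))
    (h1 : ∫ x in Set.Ioi (0 : ℝ), (P x * ((1 - Real.exp (-(p * x))) *
      (Real.exp (-((p + q) / 2 * x)) - Real.exp (-(q * x))))) * v u x ≤ 0)
    (h2 : 0 ≤ ∫ x in Set.Ioi (0 : ℝ), (P x * ((1 - Real.exp (-(q * x))) *
      (Real.exp (-(p * x)) - Real.exp (-((p + q) / 2 * x))))) * v u x) : False := by
  have hW : ∀ x, 0 < x → 0 < P x * ((1 - Real.exp (-(q * x))) *
      (Real.exp (-(p * x)) - Real.exp (-((p + q) / 2 * x)))) := by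
    intro x hx
    have a1 : Real.exp (-(q * x)) < Real.exp 0 :=
      Real.exp_lt_exp.2 (by have := mul_pos (hp.trans hq) hx; linarith)
    rw [Real.exp_zero] at a1
    have a2 : Real.exp (-((p + q) / 2 * x)) < Real.exp (-(p * x)) :=
      Real.exp_lt_exp.2 (by nlinarith)
    exact mul_pos (hP x hx) (mul_pos (by linarith) (by linarith))
  have hcont : Continuous fun x => P x * ((1 - Real.exp (-(q * x))) *
      (Real.exp (-(p * x)) - Real.exp (-((p + q) / 2 * x)))) := by
    exact hPc.mul (by fun_prop)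
  have hcont1 : Continuous fun x => P x * ((1 - Real.exp (-(p * x))) *
      (Real.exp (-((p + q) / 2 * x)) - Real.exp (-(q * x)))) := by
    exact hPc.mul (by fun_prop)
  have hX : 0 < 2 / u ^ 2 := by positivity
  by_cases hc : ∃ x₁, 0 < x₁ ∧ 0 < v u x₁
  · obtain ⟨x₁, hx₁, hv₁⟩ := hc
    have hlt : x₁ < 2 / u ^ 2 := by
      by_contra hcon
      push Not at hcon
      rcases hcon.lt_or_eq with h | h
      · have := v_pos_of hu hX h hv₁.le
        have := v_neg hu
        linarith
      · rw [← h] at hv₁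
        have := v_neg hu
        linarith
    obtain ⟨x₀, hx₀, hv₀⟩ : ∃ x₀ ∈ Set.Icc x₁ (2 / u ^ 2), v u x₀ = 0 :=
      intermediate_value_Icc' hlt.le (continuous_v u).continuousOn ⟨(v_neg hu).le, hv₁.le⟩
    have hx₀p : 0 < x₀ := hx₁.trans_le hx₀.1
    have hx₁₀ : x₁ < x₀ := by
      rcases hx₀.1.lt_or_eq with h | h
      · exact h
      · rw [h, hv₀] at hv₁
        exact absurd hv₁ (lt_irrefl _)
    set r : ℝ := Real.sinh (p / 2 * x₀) / Real.sinh (q / 2 * x₀) with hr
    have hr0 : 0 ≤ r := div_nonneg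
      (Real.sinh_pos_iff.2 (mul_pos (by linarith) hx₀p)).le
      (Real.sinh_pos_iff.2 (mul_pos (by linarith) hx₀p)).le
    have hdiff : ∀ x, 0 < x → (P x * ((1 - Real.exp (-(p * x))) *
        (Real.exp (-((p + q) / 2 * x)) - Real.exp (-(q * x))))) * v u x -
        r * ((P x * ((1 - Real.exp (-(q * x))) *
        (Real.exp (-(p * x)) - Real.exp (-((p + q) / 2 * x))))) * v u x) =
        (P x * ((1 - Real.exp (-(q * x))) *
        (Real.exp (-(p * x)) - Real.exp (-((p + q) / 2 * x))))) *
        ((Real.sinh (p / 2 * x) / Real.sinh (q / 2 * x) - r) * v u x) := by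
      intro x hx
      rw [ratio_eq hp hq hx]
      ring
    have hpos := integral_pos_of (f := fun x => (P x * ((1 - Real.exp (-(p * x))) *
        (Real.exp (-((p + q) / 2 * x)) - Real.exp (-(q * x))))) * v u x -
        r * ((P x * ((1 - Real.exp (-(q * x))) *
        (Real.exp (-(p * x)) - Real.exp (-((p + q) / 2 * x))))) * v u x))
      ((hcont1.mul (continuous_v u)).sub ((hcont.mul (continuous_v u)).const_mul r))
      (hi1.sub (hi2.const_mul r))
      (fun x hx => by
        rw [hdiff x hx]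
        refine mul_nonneg (hW x hx).le ?_
        rcases lt_trichotomy x x₀ with h | h | h
        · have b1 := v_pos_of hu hx h hv₀.ge
          have b2 := sinh_ratio (g := p / 2) (b := q / 2) (by linarith) (by linarith) hx h
          exact mul_nonneg (by linarith) b1.le
        · rw [h, hv₀, mul_zero]
        · have b1 : v u x < 0 := by
            by_contra hcon
            push Not at hcon
            have := v_pos_of hu hx₀p h hcon
            linarith
          have b2 := sinh_ratio (g := p / 2) (b := q / 2) (by linarith) (by linarith) hx₀p h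
          exact mul_nonneg_of_nonpos_of_nonpos (by linarith) b1.le)
      hx₁ (by
        rw [hdiff x₁ hx₁]
        have b2 := sinh_ratio (g := p / 2) (b := q / 2) (by linarith) (by linarith) hx₁ hx₁₀
        exact mul_pos (hW x₁ hx₁) (mul_pos (by linarith) hv₁))
    rw [integral_sub hi1 (hi2.const_mul r), integral_const_mul] at hpos
    nlinarith
  · push Not at hc
    have hpos := integral_pos_of (f := fun x => -((P x * ((1 - Real.exp (-(q * x))) *
        (Real.exp (-(p * x)) - Real.exp (-((p + q) / 2 * x))))) * v u x))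
      ((hcont.mul (continuous_v u)).neg) hi2.neg
      (fun x hx => by
        have := mul_nonpos_of_nonneg_of_nonpos (hW x hx).le (hc x hx)
        linarith)
      hX (by
        have := mul_neg_of_pos_of_neg (hW _ hX) (v_neg hu)
        linarith)
    rw [integral_neg] at hpos
    linarith

end Pool.Agent.X188.MaxExp
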